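import Mathlib
import Pool.Agent.Lib.H55P.Defs
import Pool.Agent.Lib.H55P.A1
import Pool.Agent.Lib.H55P.L1
import Pool.Agent.Lib.H55P.F0

/-!
# H41D: relative differents and discriminants at a place above p (definitions and simple facts, no sorry)

Setting: F imaginary quadratic of class number one, K a finite extension, V a valuation subring of the complex numbers.
-/

open NumberField IsDedekindDomain

namespace H41D

open H55P

/-- The size at V of the relative norm to F of an ideal. -/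
noncomputable def vN (F : Type) [Field F] [NumberField F] [IQ F] {K : Type} [Field K] [NumberField K] [Algebra F K]
    (V : ValuationSubring ℂ) (a : Ideal (𝓞 K)) : V.ValueGroup :=
  V.valuation (eF F (Submodule.IsPrincipal.generator (Ideal.relNorm (𝓞 F) a)))

/-- The size at V of the complex conjugate of the relative norm to F of an ideal. -/
noncomputable def vNc (F : Type) [Field F] [NumberField F] [IQ F] {K : Type} [Field K] [NumberField K] [Algebra F K]
    (V : ValuationSubring ℂ) (a : Ideal (𝓞 K)) : V.ValueGroup :=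
  V.valuation ((starRingEnd ℂ) (eF F (Submodule.IsPrincipal.generator (Ideal.relNorm (𝓞 F) a))))

variable {F : Type} [Field F] [NumberField F] [IQ F] {K : Type} [Field K] [NumberField K] [Algebra F K]

theorem val_int (V : ValuationSubring ℂ) {z : ℂ} (hz : IsIntegral ℤ z) : V.valuation z ≤ 1 := by
  rw [V.valuation_le_one_iff]
  have h1 : IsIntegral V z := hz.tower_top
  obtain ⟨y, hy⟩ := IsIntegrallyClosed.isIntegral_iff.1 h1
  rw [← hy]
  exact y.2

theorem val_emb (V : ValuationSubring ℂ) (σ : K →+* ℂ) (x : 𝓞 K) : V.valuation (σ x) ≤ 1 :=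
  val_int V (map_isIntegral_int σ x.2)

theorem val_embc (V : ValuationSubring ℂ) (σ : K →+* ℂ) (x : 𝓞 K) : V.valuation ((starRingEnd ℂ) (σ x)) ≤ 1 :=
  val_int V (map_isIntegral_int (starRingEnd ℂ) (map_isIntegral_int σ x.2))

theorem val_eF (V : ValuationSubring ℂ) (x : 𝓞 F) : V.valuation (eF F x) ≤ 1 := val_emb V (embF F) x

theorem val_eFc (V : ValuationSubring ℂ) (x : 𝓞 F) : V.valuation ((starRingEnd ℂ) (eF F x)) ≤ 1 := val_embc V (embF F) x

theorem val_unit (V : ValuationSubring ℂ) {x : 𝓞 F} (hx : IsUnit x) : V.valuation (eF F x) = 1 := by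
  obtain ⟨u, rfl⟩ := hx
  refine le_antisymm (val_eF V _) ?_
  have h : V.valuation (eF F (u : 𝓞 F)) * V.valuation (eF F ((u⁻¹ : (𝓞 F)ˣ) : 𝓞 F)) = 1 := by
    rw [← map_mul, ← map_mul, Units.mul_inv, map_one, map_one]
  by_contra hlt
  push Not at hlt
  have h2 := mul_lt_one_of_lt_of_le hlt (val_eF V ((u⁻¹ : (𝓞 F)ˣ) : 𝓞 F))
  rw [h] at h2
  exact lt_irrefl _ h2

theorem val_unitc (V : ValuationSubring ℂ) {x : 𝓞 F} (hx : IsUnit x) : V.valuation ((starRingEnd ℂ) (eF F x)) = 1 := by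
  obtain ⟨u, rfl⟩ := hx
  refine le_antisymm (val_eFc V _) ?_
  have h : V.valuation ((starRingEnd ℂ) (eF F (u : 𝓞 F))) *
      V.valuation ((starRingEnd ℂ) (eF F ((u⁻¹ : (𝓞 F)ˣ) : 𝓞 F))) = 1 := by
    rw [← map_mul, ← map_mul, ← map_mul, Units.mul_inv, map_one, map_one, map_one]
  by_contra hlt
  push Not at hlt
  have h2 := mul_lt_one_of_lt_of_le hlt (val_eFc V ((u⁻¹ : (𝓞 F)ˣ) : 𝓞 F))
  rw [h] at h2
  exact lt_irrefl _ h2

/-- The generator may be replaced by any other one. -/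
theorem gen_assoc {a : Ideal (𝓞 F)} {g : 𝓞 F} (h : a = Ideal.span {g}) : Associated (Submodule.IsPrincipal.generator a) g := by
  rw [← Ideal.span_singleton_eq_span_singleton, ← h]
  exact Submodule.IsPrincipal.span_singleton_generator a

theorem val_gen (V : ValuationSubring ℂ) {a : Ideal (𝓞 F)} {g : 𝓞 F} (h : a = Ideal.span {g}) :
    V.valuation (eF F (Submodule.IsPrincipal.generator a)) = V.valuation (eF F g) := by
  obtain ⟨u, hu⟩ := gen_assoc h
  rw [← hu, map_mul, map_mul, val_unit V u.isUnit, mul_one]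

theorem val_genc (V : ValuationSubring ℂ) {a : Ideal (𝓞 F)} {g : 𝓞 F} (h : a = Ideal.span {g}) :
    V.valuation ((starRingEnd ℂ) (eF F (Submodule.IsPrincipal.generator a))) = V.valuation ((starRingEnd ℂ) (eF F g)) := by
  obtain ⟨u, hu⟩ := gen_assoc h
  rw [← hu, map_mul, map_mul, map_mul, val_unitc V u.isUnit, mul_one]

theorem vN_le (V : ValuationSubring ℂ) (a : Ideal (𝓞 K)) : vN F V a ≤ 1 := val_eF V _

theorem vNc_le (V : ValuationSubring ℂ) (a : Ideal (𝓞 K)) : vNc F V a ≤ 1 := val_eFc V _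

theorem vN_eq (V : ValuationSubring ℂ) {a : Ideal (𝓞 K)} {g : 𝓞 F} (h : Ideal.relNorm (𝓞 F) a = Ideal.span {g}) :
    vN F V a = V.valuation (eF F g) := val_gen V h

theorem vNc_eq (V : ValuationSubring ℂ) {a : Ideal (𝓞 K)} {g : 𝓞 F} (h : Ideal.relNorm (𝓞 F) a = Ideal.span {g}) :
    vNc F V a = V.valuation ((starRingEnd ℂ) (eF F g)) := val_genc V h

theorem exists_gen (a : Ideal (𝓞 K)) : ∃ g : 𝓞 F, Ideal.relNorm (𝓞 F) a = Ideal.span {g} :=
  ⟨_, (Submodule.IsPrincipal.span_singleton_generator (Ideal.relNorm (𝓞 F) a)).symm⟩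

theorem vN_mul (V : ValuationSubring ℂ) (a b : Ideal (𝓞 K)) : vN F V (a * b) = vN F V a * vN F V b := by
  obtain ⟨g, hg⟩ := exists_gen (F := F) a
  obtain ⟨h, hh⟩ := exists_gen (F := F) b
  rw [vN_eq V hg, vN_eq V hh, vN_eq V (g := g * h) (by rw [map_mul, hg, hh, Ideal.span_singleton_mul_span_singleton]), map_mul, map_mul]

theorem vNc_mul (V : ValuationSubring ℂ) (a b : Ideal (𝓞 K)) : vNc F V (a * b) = vNc F V a * vNc F V b := by
  obtain ⟨g, hg⟩ := exists_gen (F := F) a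
  obtain ⟨h, hh⟩ := exists_gen (F := F) b
  rw [vNc_eq V hg, vNc_eq V hh, vNc_eq V (g := g * h) (by rw [map_mul, hg, hh, Ideal.span_singleton_mul_span_singleton]), map_mul, map_mul,
    map_mul]

theorem vN_top (V : ValuationSubring ℂ) : vN F V (⊤ : Ideal (𝓞 K)) = 1 := by
  rw [vN_eq V (g := 1) (by rw [Ideal.relNorm_top, Ideal.span_singleton_one]), map_one, map_one]

theorem vNc_top (V : ValuationSubring ℂ) : vNc F V (⊤ : Ideal (𝓞 K)) = 1 := by
  rw [vNc_eq V (g := 1) (by rw [Ideal.relNorm_top, Ideal.span_singleton_one]), map_one, map_one, map_one]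

theorem vN_pow (V : ValuationSubring ℂ) (a : Ideal (𝓞 K)) (n : ℕ) : vN F V (a ^ n) = vN F V a ^ n := by
  induction n with
  | zero => rw [pow_zero, pow_zero, Ideal.one_eq_top, vN_top]
  | succ n ih => rw [pow_succ, pow_succ, vN_mul, ih]

theorem vNc_pow (V : ValuationSubring ℂ) (a : Ideal (𝓞 K)) (n : ℕ) : vNc F V (a ^ n) = vNc F V a ^ n := by
  induction n with
  | zero => rw [pow_zero, pow_zero, Ideal.one_eq_top, vNc_top]
  | succ n ih => rw [pow_succ, pow_succ, vNc_mul, ih]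

theorem vN_prod (V : ValuationSubring ℂ) {ι : Type} (s : Finset ι) (a : ι → Ideal (𝓞 K)) :
    vN F V (∏ i ∈ s, a i) = ∏ i ∈ s, vN F V (a i) := by
  classical
  induction s using Finset.induction_on with
  | empty => rw [Finset.prod_empty, Finset.prod_empty, Ideal.one_eq_top, vN_top]
  | insert i s hi ih => rw [Finset.prod_insert hi, Finset.prod_insert hi, vN_mul, ih]

theorem eF_ne {x : 𝓞 F} (hx : x ≠ 0) : eF F x ≠ 0 := by
  intro h
  apply hx
  apply RingOfIntegers.coe_injective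
  rw [map_zero]
  exact (map_eq_zero (embF F)).1 h

theorem gen_ne {a : Ideal (𝓞 K)} (ha : a ≠ ⊥) {g : 𝓞 F} (h : Ideal.relNorm (𝓞 F) a = Ideal.span {g}) : g ≠ 0 := by
  rintro rfl
  rw [Ideal.span_singleton_eq_bot.2 rfl, Ideal.relNorm_eq_bot_iff] at h
  exact ha h

theorem vN_ne (V : ValuationSubring ℂ) {a : Ideal (𝓞 K)} (ha : a ≠ ⊥) : vN F V a ≠ 0 := by
  obtain ⟨g, hg⟩ := exists_gen (F := F) a
  rw [vN_eq V hg]
  exact (map_ne_zero _).2 (eF_ne (gen_ne ha hg))

theorem vNc_ne (V : ValuationSubring ℂ) {a : Ideal (𝓞 K)} (ha : a ≠ ⊥) : vNc F V a ≠ 0 := by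
  obtain ⟨g, hg⟩ := exists_gen (F := F) a
  rw [vNc_eq V hg]
  exact (map_ne_zero _).2 ((map_ne_zero _).2 (eF_ne (gen_ne ha hg)))

/-- Principal ideals. -/
theorem vN_span (V : ValuationSubring ℂ) {m : ℕ} {σ : Fin (m + 1) → K →+* ℂ} (hσ : Emb F σ) (x : 𝓞 K) :
    vN F V (Ideal.span {x}) = V.valuation (∏ i, σ i x) := by
  have := a1_fin hσ.fin
  rw [vN_eq V (Ideal.relNorm_singleton (R := 𝓞 F) x), norm_eq hσ]
  congr 1
  show embF F (algebraMap (𝓞 F) F (Algebra.intNorm (𝓞 F) (𝓞 K) x)) = _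
  rw [Algebra.algebraMap_intNorm (A := 𝓞 F) (K := F) (L := K) (B := 𝓞 K)]

end H41D
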