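import Mathlib
import Pool.Agent.Lib.H41D.Defs

/-! # H41D, P1: elements and ideals prime to the prime below V -/

open NumberField IsDedekindDomain

namespace H41D

open H55P

variable {F : Type} [Field F] [NumberField F] [IQ F] {K : Type} [Field K] [NumberField K] [Algebra F K]

theorem val_lt_iff (V : ValuationSubring ℂ) {π : 𝓞 F} (hπ : Prime π) (hV : V.valuation (eF F π) < 1) (x : 𝓞 F) :
    V.valuation (eF F x) < 1 ↔ π ∣ x := by
  constructor
  · intro hx
    by_contra hdvd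
    have hco : IsCoprime π x := (Prime.coprime_iff_not_dvd hπ).2 hdvd
    obtain ⟨a, b, hab⟩ := hco
    have h1 : V.valuation (eF F (a * π + b * x)) < 1 := by
      rw [map_add, map_mul, map_mul]
      refine lt_of_le_of_lt (V.valuation.map_add _ _) (max_lt ?_ ?_)
      · rw [map_mul, mul_comm]; exact mul_lt_one_of_lt_of_le hV (val_eF V a)
      · rw [map_mul, mul_comm]; exact mul_lt_one_of_lt_of_le hx (val_eF V b)
    rw [hab, map_one, map_one] at h1
    exact lt_irrefl _ h1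
  · rintro ⟨y, rfl⟩
    rw [map_mul, map_mul]
    exact mul_lt_one_of_lt_of_le hV (val_eF V y)

theorem val_eq_one_iff (V : ValuationSubring ℂ) {π : 𝓞 F} (hπ : Prime π) (hV : V.valuation (eF F π) < 1) (x : 𝓞 F) :
    V.valuation (eF F x) = 1 ↔ ¬ π ∣ x := by
  rw [← val_lt_iff V hπ hV, not_lt]
  exact ⟨fun h => h.ge, fun h => le_antisymm (val_eF V x) h⟩

/-- An element of 1 + π O_K has norm of size 1. -/
theorem val_norm_one (V : ValuationSubring ℂ) {π : 𝓞 F} (hV : V.valuation (eF F π) < 1) {m : ℕ} {σ : Fin (m + 1) → K →+* ℂ}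
    (hσ : Emb F σ) (y : 𝓞 K) : V.valuation (∏ i, σ i ((1 + algebraMap (𝓞 F) (𝓞 K) π * y : 𝓞 K) : K)) = 1 := by
  rw [map_prod]
  refine Finset.prod_eq_one fun i _ => ?_
  have h1 : σ i ((1 + algebraMap (𝓞 F) (𝓞 K) π * y : 𝓞 K) : K) = 1 + eF F π * σ i (y : K) := by
    have h2 : ((1 + algebraMap (𝓞 F) (𝓞 K) π * y : 𝓞 K) : K) = 1 + algebraMap F K (π : F) * (y : K) := rfl
    rw [h2, map_add, map_one, map_mul, hσ.ovr]
    rfl
  rw [h1]
  have h3 : V.valuation (eF F π * σ i (y : K)) < 1 := by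
    rw [map_mul]
    exact mul_lt_one_of_lt_of_le hV (val_emb V (σ i) y)
  have h4 := V.valuation.map_add_eq_of_lt_right (x := eF F π * σ i (y : K)) (y := 1) (by rw [map_one]; exact h3)
  rw [add_comm, h4, map_one]

/-- Ideals prime to π have norm of size 1. -/
theorem vN_cop (V : ValuationSubring ℂ) {π : 𝓞 F} (hV : V.valuation (eF F π) < 1) {C : Ideal (𝓞 K)}
    (hC : C ⊔ Ideal.span {algebraMap (𝓞 F) (𝓞 K) π} = ⊤) : vN F V C = 1 := by
  have : FiniteDimensional F K := Module.Finite.of_restrictScalars_finite ℚ F K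
  obtain ⟨m, hm⟩ : ∃ m, Module.finrank F K = m + 1 := ⟨Module.finrank F K - 1, by
    have := Module.finrank_pos (R := F) (M := K)
    omega⟩
  obtain ⟨σ, hσ⟩ := emb_exists K m hm
  obtain ⟨c, hc, d, hd, hcd⟩ := Submodule.mem_sup.1 (hC ▸ Submodule.mem_top : (1 : 𝓞 K) ∈ C ⊔ Ideal.span {algebraMap (𝓞 F) (𝓞 K) π})
  obtain ⟨y, rfl⟩ := Ideal.mem_span_singleton.1 hd
  have hc1 : c = 1 + algebraMap (𝓞 F) (𝓞 K) π * (-y) := by linear_combination hcd
  obtain ⟨E, hE⟩ := Ideal.dvd_iff_le.2 ((Ideal.span_singleton_le_iff_mem (I := C)).2 hc)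
  have h1 : vN F V C * vN F V E = 1 := by
    rw [← vN_mul, ← hE, vN_span V hσ, hc1]
    exact val_norm_one V hV hσ (-y)
  refine le_antisymm (vN_le V C) ?_
  by_contra hlt
  push Not at hlt
  have h2 := mul_lt_one_of_lt_of_le hlt (vN_le (F := F) V E)
  rw [h1] at h2
  exact lt_irrefl _ h2

end H41D
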