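import Mathlib
import Pool.Agent.Lib.H41D.Defs

/-! # H41D, P2: determinants of embeddings -/

open NumberField IsDedekindDomain Matrix

namespace H41D

open H55P

variable {F : Type} [Field F] [NumberField F] [IQ F] {K : Type} [Field K] [NumberField K] [Algebra F K] {m : ℕ}

/-- The determinant of the embeddings of a family. -/
noncomputable def dl (σ : Fin (m + 1) → K →+* ℂ) (ω : Fin (m + 1) → K) : ℂ := Matrix.det (Matrix.of fun i s => σ i (ω s))

theorem dl_mul (σ : Fin (m + 1) → K →+* ℂ) (ω : Fin (m + 1) → K) (x : K) :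
    dl σ (fun s => x * ω s) = (∏ i, σ i x) * dl σ ω := by
  unfold dl
  have h : (Matrix.of fun i s => σ i (x * ω s)) = Matrix.of (fun i s => (σ i x) * (Matrix.of fun i s => σ i (ω s)) i s) := by
    ext i s
    simp [map_mul]
  rw [h, Matrix.det_mul_column]

theorem dl_dual {σ : Fin (m + 1) → K →+* ℂ} (hσ : Emb F σ) (ω ω' : Fin (m + 1) → K)
    (h : ∀ j k, Algebra.trace F K (ω j * ω' k) = if j = k then 1 else 0) : dl σ ω * dl σ ω' = 1 := by
  unfold dl
  rw [← Matrix.det_transpose, ← Matrix.det_mul]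
  have h1 : (Matrix.of fun i s => σ i (ω s))ᵀ * (Matrix.of fun i s => σ i (ω' s)) = 1 := by
    ext j k
    rw [Matrix.mul_apply]
    have h2 : ∀ i, (Matrix.of fun i s => σ i (ω s))ᵀ j i * (Matrix.of fun i s => σ i (ω' s)) i k = σ i (ω j * ω' k) := by
      intro i
      simp [map_mul]
    rw [Finset.sum_congr rfl fun i _ => h2 i, trace_eq hσ, h, Matrix.one_apply]
    split_ifs <;> simp
  rw [h1, Matrix.det_one]

theorem dl_rep {σ : Fin (m + 1) → K →+* ℂ} (hσ : Emb F σ) (x ω : Fin (m + 1) → K) (A : Fin (m + 1) → Fin (m + 1) → 𝓞 F)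
    (h : ∀ s, x s = ∑ t, algebraMap F K (A s t : F) * ω t) :
    dl σ x = eF F (Matrix.det (Matrix.of fun s t => A s t)) * dl σ ω := by
  unfold dl
  rw [(eF F).map_det, mul_comm, ← Matrix.det_transpose ((eF F).mapMatrix _), ← Matrix.det_mul]
  congr 1
  ext i s
  rw [Matrix.mul_apply]
  show σ i (x s) = _
  rw [h s, map_sum]
  refine Finset.sum_congr rfl fun t _ => ?_
  rw [map_mul, hσ.ovr, mul_comm]
  rfl

theorem val_dl_rep (V : ValuationSubring ℂ) {σ : Fin (m + 1) → K →+* ℂ} (hσ : Emb F σ) (x ω : Fin (m + 1) → K)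
    (h : ∀ s, ∃ a : Fin (m + 1) → 𝓞 F, x s = ∑ t, algebraMap F K (a t : F) * ω t) :
    V.valuation (dl σ x) ≤ V.valuation (dl σ ω) := by
  choose A hA using h
  rw [dl_rep hσ x ω A hA, map_mul]
  exact mul_le_of_le_one_left' (val_eF V _)

theorem dl_ne {σ : Fin (m + 1) → K →+* ℂ} (hσ : Emb F σ) (ω ω' : Fin (m + 1) → K)
    (h : ∀ j k, Algebra.trace F K (ω j * ω' k) = if j = k then 1 else 0) : dl σ ω ≠ 0 := by
  intro h0
  have := dl_dual hσ ω ω' h
  rw [h0, zero_mul] at this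
  exact zero_ne_one this

end H41D
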