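import Mathlib
import Pool.Agent.Lib.H41D.P1
import Pool.Agent.Lib.H41D.P2

/-! # H41D, P3: the discriminant of an integral basis is the norm of the different -/

open NumberField IsDedekindDomain

namespace H41D

open H55P

variable {F : Type} [Field F] [NumberField F] [IQ F] {K : Type} [Field K] [NumberField K] [Algebra F K] {m : ℕ}

theorem fone_ne {K : Type} [Field K] [NumberField K] : (1 : FractionalIdeal (nonZeroDivisors (𝓞 K)) K) ≠ 0 := one_ne_zero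

theorem diff_ne : differentIdeal (𝓞 F) (𝓞 K) ≠ ⊥ := differentIdeal_ne_bot

/-- An element of D generating D up to an ideal prime to J. -/
theorem exists_loc_gen {D J : Ideal (𝓞 K)} (hD : D ≠ ⊥) (hJ : J ≠ ⊥) :
    ∃ (x : 𝓞 K) (C : Ideal (𝓞 K)), x ≠ 0 ∧ Ideal.span {x} = D * C ∧ C ⊔ J = ⊤ := by
  obtain ⟨x, hx⟩ := IsDedekindDomain.exists_sup_span_eq (I := D * J) (J := D) Ideal.mul_le_left (mul_ne_zero hD hJ)
  have hxD : x ∈ D := by
    rw [← hx]
    exact Ideal.mem_sup_right (Ideal.mem_span_singleton_self x)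
  by_cases h0 : x = 0
  · have h1 : D * J = D * ⊤ := by
      rw [h0, Ideal.span_singleton_eq_bot.2 rfl, sup_bot_eq] at hx
      rw [hx, Ideal.mul_top]
    have h2 : J = ⊤ := mul_left_cancel₀ (show D ≠ 0 from hD) h1
    obtain ⟨y, hy, hy0⟩ := Submodule.exists_mem_ne_zero_of_ne_bot hD
    obtain ⟨C, hC⟩ := Ideal.dvd_iff_le.2 ((Ideal.span_singleton_le_iff_mem (I := D)).2 hy)
    exact ⟨y, C, hy0, hC, by rw [h2, sup_top_eq]⟩
  · obtain ⟨C, hC⟩ := Ideal.dvd_iff_le.2 ((Ideal.span_singleton_le_iff_mem (I := D)).2 hxD)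
    refine ⟨x, C, h0, hC, ?_⟩
    have h1 : D * (C ⊔ J) = D * ⊤ := by
      rw [Ideal.mul_sup, Ideal.mul_top, ← hC, sup_comm, hx]
    exact mul_left_cancel₀ (show D ≠ 0 from hD) h1

/-- The different and the dual of the integers: integrality of x y for x in the different, y in the dual. -/
theorem diff_mul_int {x : 𝓞 K} (hx : x ∈ differentIdeal (𝓞 F) (𝓞 K)) (y : K)
    (hy : ∀ b : 𝓞 K, ∃ z : 𝓞 F, Algebra.trace F K (y * b) = (z : F)) : ∃ z : 𝓞 K, (x : K) * y = z := by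
  have h1 : y ∈ FractionalIdeal.dual (𝓞 F) F (1 : FractionalIdeal (nonZeroDivisors (𝓞 K)) K) := by
    rw [FractionalIdeal.mem_dual fone_ne]
    intro a ha
    obtain ⟨b, rfl⟩ := (FractionalIdeal.mem_one_iff _).1 ha
    obtain ⟨z, hz⟩ := hy b
    exact ⟨z, hz.symm⟩
  have h2 : (x : K) ∈ (FractionalIdeal.dual (𝓞 F) F (1 : FractionalIdeal (nonZeroDivisors (𝓞 K)) K))⁻¹ := by
    rw [← coeIdeal_differentIdeal (𝓞 F) F K (𝓞 K)]
    exact (FractionalIdeal.mem_coeIdeal _).2 ⟨x, hx, rfl⟩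
  have h3 := FractionalIdeal.mul_mem_mul h2 h1
  rw [inv_mul_cancel₀ (FractionalIdeal.dual_ne_zero (𝓞 F) F fone_ne)] at h3
  obtain ⟨z, hz⟩ := (FractionalIdeal.mem_one_iff _).1 h3
  exact ⟨z, hz.symm⟩

theorem diff_dual {x : 𝓞 K} (hx0 : x ≠ 0) {C : Ideal (𝓞 K)} (hx : Ideal.span {x} = differentIdeal (𝓞 F) (𝓞 K) * C) {c : 𝓞 K}
    (hc : c ∈ C) (b : 𝓞 K) : ∃ z : 𝓞 F, Algebra.trace F K ((c : K) / x * b) = (z : F) := by
  have hxK : (x : K) ≠ 0 := fun h => hx0 (RingOfIntegers.coe_injective (h.trans (map_zero _).symm))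
  have h0 : (differentIdeal (𝓞 F) (𝓞 K) : FractionalIdeal (nonZeroDivisors (𝓞 K)) K) ≠ 0 := by
    rw [Ne, FractionalIdeal.coeIdeal_eq_zero]
    exact diff_ne
  have h1 : (c : K) / x ∈ FractionalIdeal.dual (𝓞 F) F (1 : FractionalIdeal (nonZeroDivisors (𝓞 K)) K) := by
    have h2 : FractionalIdeal.dual (𝓞 F) F (1 : FractionalIdeal (nonZeroDivisors (𝓞 K)) K) =
        (differentIdeal (𝓞 F) (𝓞 K) : FractionalIdeal (nonZeroDivisors (𝓞 K)) K)⁻¹ := by
      rw [coeIdeal_differentIdeal (𝓞 F) F K (𝓞 K), inv_inv]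
    rw [h2, FractionalIdeal.mem_inv_iff h0]
    intro y hy
    obtain ⟨d, hd, rfl⟩ := (FractionalIdeal.mem_coeIdeal _).1 hy
    have h3 : d * c ∈ Ideal.span {x} := by
      rw [hx]
      exact Ideal.mul_mem_mul hd hc
    obtain ⟨z, hz⟩ := Ideal.mem_span_singleton.1 h3
    refine (FractionalIdeal.mem_one_iff _).2 ⟨z, ?_⟩
    have h4 := congrArg (algebraMap (𝓞 K) K) hz
    rw [map_mul, map_mul] at h4
    rw [div_mul_eq_mul_div, eq_div_iff hxK]
    show algebraMap (𝓞 K) K z * algebraMap (𝓞 K) K x = algebraMap (𝓞 K) K c * _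
    rw [mul_comm, ← h4, mul_comm]
  rw [FractionalIdeal.mem_dual fone_ne] at h1
  obtain ⟨z, hz⟩ := h1 (b : K) ((FractionalIdeal.mem_one_iff _).2 ⟨b, rfl⟩)
  exact ⟨z, hz.symm⟩

end H41D
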