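import Mathlib
import Pool.Agent.Lib.H41D.P3

/-! # H41D, P4: V(det σ_i(ω_s))^2 = V(N D) for an integral basis ω -/

open NumberField IsDedekindDomain

namespace H41D

open H55P

variable {F : Type} [Field F] [NumberField F] [IQ F] {K : Type} [Field K] [NumberField K] [Algebra F K] {m : ℕ}

/-- ω is an integral basis of K over F. -/
def IBas (F : Type) [Field F] [NumberField F] [IQ F] {K : Type} [Field K] [NumberField K] [Algebra F K] {m : ℕ}
    (ω : Fin (m + 1) → 𝓞 K) : Prop :=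
  ∀ x : 𝓞 K, ∃ y : Fin (m + 1) → 𝓞 F, x = ∑ j, algebraMap (𝓞 F) (𝓞 K) (y j) * ω j

/-- The dual family. -/
def Dual (F : Type) [Field F] [NumberField F] [IQ F] {K : Type} [Field K] [NumberField K] [Algebra F K] {m : ℕ}
    (ω : Fin (m + 1) → K) (ω' : Fin (m + 1) → K) : Prop :=
  ∀ j k, Algebra.trace F K (ω j * ω' k) = if j = k then 1 else 0

theorem ibas_exists (hm : Module.finrank F K = m + 1) : ∃ ω : Fin (m + 1) → 𝓞 K, IBas F ω := by
  obtain ⟨β, -, h2, -⟩ := pl1_basis hm (⊤ : Ideal (𝓞 K)) top_ne_bot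
  exact ⟨β, fun x => h2 x Submodule.mem_top⟩

theorem ibas_of_basis (b : Module.Basis (Fin (m + 1)) (𝓞 F) (𝓞 K)) : IBas F b := by
  intro x
  refine ⟨fun j => b.repr x j, ?_⟩
  have h := b.sum_repr x
  rw [← h]
  refine Finset.sum_congr rfl fun j _ => ?_
  rw [b.sum_repr, Algebra.smul_def]

theorem coe_sum {ι : Type} (s : Finset ι) (f : ι → 𝓞 K) : ((∑ i ∈ s, f i : 𝓞 K) : K) = ∑ i ∈ s, (f i : K) :=
  map_sum (algebraMap (𝓞 K) K) f s

theorem coe_rep (ω : Fin (m + 1) → 𝓞 K) (y : Fin (m + 1) → 𝓞 F) :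
    ((∑ j, algebraMap (𝓞 F) (𝓞 K) (y j) * ω j : 𝓞 K) : K) = ∑ j, algebraMap F K (y j : F) * (ω j : K) := by
  rw [coe_sum]
  rfl

theorem ibas_dual (hm : Module.finrank F K = m + 1) {ω : Fin (m + 1) → 𝓞 K} (h : IBas F ω) :
    ∃ ω' : Fin (m + 1) → K, Dual F (fun j => (ω j : K)) ω' := by
  have := a1_fin hm
  obtain ⟨β, -, -, hli⟩ := pl1_basis hm (⊤ : Ideal (𝓞 K)) top_ne_bot
  have hsp : ⊤ ≤ Submodule.span F (Set.range fun j => (ω j : K)) := by
    have h1 : (⊤ : Submodule F K) = Submodule.span F (Set.range fun j => (β j : K)) := by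
      have := (basisOfLinearIndependentOfCardEqFinrank hli (by rw [hm, Fintype.card_fin])).span_eq
      rw [coe_basisOfLinearIndependentOfCardEqFinrank] at this
      exact this.symm
    rw [h1, Submodule.span_le]
    rintro _ ⟨j, rfl⟩
    obtain ⟨y, hy⟩ := h (β j)
    show ((β j : 𝓞 K) : K) ∈ Submodule.span F (Set.range fun j => (ω j : K))
    rw [hy, coe_rep]
    refine Submodule.sum_mem _ fun k _ => ?_
    rw [← Algebra.smul_def]
    exact Submodule.smul_mem _ _ (Submodule.subset_span ⟨k, rfl⟩)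
  have hli' : LinearIndependent F (fun j => (ω j : K)) :=
    linearIndependent_of_top_le_span_of_card_eq_finrank hsp (by rw [hm, Fintype.card_fin])
  obtain ⟨ω', -, h2⟩ := pl1_dual hm _ hli'
  exact ⟨ω', h2⟩

theorem dual_rep (hm : Module.finrank F K = m + 1) {ω ω' : Fin (m + 1) → K} (h : Dual F ω ω') (y : K) :
    y = ∑ t, algebraMap F K (Algebra.trace F K (y * ω t)) * ω' t := by
  have := a1_fin hm
  have key : ∀ (f : Fin (m + 1) → F) (s : Fin (m + 1)), Algebra.trace F K ((∑ t, f t • ω' t) * ω s) = f s := by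
    intro f s
    rw [Finset.sum_mul, map_sum, Finset.sum_eq_single s]
    · rw [smul_mul_assoc, map_smul, mul_comm, h, if_pos rfl, smul_eq_mul, mul_one]
    · intro t _ ht
      rw [smul_mul_assoc, map_smul, mul_comm, h, if_neg ht.symm, smul_zero]
    · intro h
      exact absurd (Finset.mem_univ s) h
  have hli : LinearIndependent F ω' := by
    rw [Fintype.linearIndependent_iff]
    intro f hf s
    rw [← key f s, hf, zero_mul, map_zero]
  let B := basisOfLinearIndependentOfCardEqFinrank hli (by rw [hm, Fintype.card_fin])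
  have hB : ∀ t, B t = ω' t := fun t => by rw [coe_basisOfLinearIndependentOfCardEqFinrank]
  have h1 := B.sum_repr y
  have h2 : ∀ t, Algebra.trace F K (y * ω t) = B.repr y t := by
    intro t
    have h3 : ∑ t, B.repr y t • ω' t = y := by
      refine Eq.trans (Finset.sum_congr rfl fun t _ => ?_) h1
      rw [hB t]
    have h4 := key (fun t => B.repr y t) t
    rw [h3] at h4
    exact h4
  refine h1.symm.trans (Finset.sum_congr rfl fun t _ => ?_)
  rw [h2 t, ← Algebra.smul_def, ← hB t]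

theorem val_disc_aux1 (V : ValuationSubring ℂ) {σ : Fin (m + 1) → K →+* ℂ} (hσ : Emb F σ) {ω : Fin (m + 1) → 𝓞 K} (hω : IBas F ω)
    {ω' : Fin (m + 1) → K} (hd : Dual F (fun j => (ω j : K)) ω') {x : 𝓞 K} (hx : x ∈ differentIdeal (𝓞 F) (𝓞 K)) :
    V.valuation (∏ i, σ i x) ≤ V.valuation (dl σ fun j => (ω j : K)) ^ 2 := by
  have h1 : ∀ s, ∃ a : Fin (m + 1) → 𝓞 F, (x : K) * ω' s = ∑ t, algebraMap F K (a t : F) * (ω t : K) := by
    intro s
    have h2 : ∀ b : 𝓞 K, ∃ z : 𝓞 F, Algebra.trace F K (ω' s * b) = (z : F) := by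
      intro b
      obtain ⟨y, hy⟩ := hω b
      refine ⟨y s, ?_⟩
      rw [hy, coe_rep, Finset.mul_sum, map_sum, Finset.sum_eq_single s]
      · rw [mul_left_comm, ← Algebra.smul_def, map_smul, mul_comm, hd, if_pos rfl, smul_eq_mul, mul_one]
      · intro t _ ht
        rw [mul_left_comm, ← Algebra.smul_def, map_smul, mul_comm, hd, if_neg ht, smul_zero]
      · intro h
        exact absurd (Finset.mem_univ s) h
    obtain ⟨z, hz⟩ := diff_mul_int hx (ω' s) h2
    obtain ⟨a, ha⟩ := hω z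
    exact ⟨a, by rw [hz, ha, coe_rep]⟩
  have h3 := val_dl_rep V hσ (fun s => (x : K) * ω' s) (fun t => (ω t : K)) h1
  rw [dl_mul, map_mul] at h3
  have h4 := congrArg V.valuation (dl_dual hσ _ _ hd)
  rw [map_mul, map_one] at h4
  calc V.valuation (∏ i, σ i x) = V.valuation (dl σ fun j => (ω j : K)) * (V.valuation (∏ i, σ i x) * V.valuation (dl σ ω')) := by
        rw [mul_left_comm, h4, mul_one]
    _ ≤ V.valuation (dl σ fun j => (ω j : K)) * V.valuation (dl σ fun j => (ω j : K)) := mul_le_mul_right h3 _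
    _ = _ := (sq _).symm

theorem val_disc_aux2 (V : ValuationSubring ℂ) {σ : Fin (m + 1) → K →+* ℂ} (hσ : Emb F σ) {ω : Fin (m + 1) → 𝓞 K}
    {ω' : Fin (m + 1) → K} (hd : Dual F (fun j => (ω j : K)) ω') {x : 𝓞 K} (hx0 : x ≠ 0) {C : Ideal (𝓞 K)}
    (hx : Ideal.span {x} = differentIdeal (𝓞 F) (𝓞 K) * C) {c : 𝓞 K} (hc : c ∈ C) (hc1 : V.valuation (∏ i, σ i c) = 1) :
    V.valuation (dl σ fun j => (ω j : K)) ^ 2 ≤ V.valuation (∏ i, σ i x) := by
  have hxK : (x : K) ≠ 0 := fun h => hx0 (RingOfIntegers.coe_injective (h.trans (map_zero _).symm))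
  have hNx : V.valuation (∏ i, σ i x) ≠ 0 := by
    rw [map_ne_zero]
    exact Finset.prod_ne_zero_iff.2 fun i _ => (map_ne_zero _).2 hxK
  have h1 : ∀ s, ∃ a : Fin (m + 1) → 𝓞 F, (c : K) / x * ω s = ∑ t, algebraMap F K (a t : F) * ω' t := by
    intro s
    have h2 : ∀ t, ∃ z : 𝓞 F, Algebra.trace F K ((c : K) / x * ω s * ω t) = (z : F) := by
      intro t
      obtain ⟨z, hz⟩ := diff_dual hx0 hx hc (ω s * ω t)
      refine ⟨z, ?_⟩
      rw [← hz, mul_assoc]
      rfl
    choose a ha using h2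
    refine ⟨a, ?_⟩
    conv_lhs => rw [dual_rep hσ.fin hd ((c : K) / x * ω s)]
    exact Finset.sum_congr rfl fun t _ => by rw [ha t]
  have h3 := val_dl_rep V hσ (fun s => (c : K) / x * ω s) ω' h1
  rw [dl_mul, map_mul] at h3
  have h4 := congrArg V.valuation (dl_dual hσ _ _ hd)
  rw [map_mul, map_one] at h4
  have h5 : V.valuation (∏ i, σ i ((c : K) / x)) = (V.valuation (∏ i, σ i x))⁻¹ := by
    rw [Finset.prod_congr rfl fun i _ => map_div₀ (σ i) (c : K) (x : K), Finset.prod_div_distrib, map_div₀, hc1, one_div]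
  rw [h5] at h3
  calc V.valuation (dl σ fun j => (ω j : K)) ^ 2 = V.valuation (∏ i, σ i x) * (V.valuation (dl σ fun j => (ω j : K)) *
        ((V.valuation (∏ i, σ i x))⁻¹ * V.valuation (dl σ fun j => (ω j : K)))) := by
        rw [mul_left_comm (V.valuation (dl σ fun j => (ω j : K))), mul_inv_cancel_left₀ hNx, sq]
    _ ≤ V.valuation (∏ i, σ i x) * (V.valuation (dl σ fun j => (ω j : K)) * V.valuation (dl σ ω')) :=
        mul_le_mul_right (mul_le_mul_right h3 _) _
    _ = _ := by rw [h4, mul_one]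

/-- (N2) The square of the discriminant determinant and the norm of the different. -/
theorem val_disc (V : ValuationSubring ℂ) {π : 𝓞 F} (hπ0 : π ≠ 0) (hV : V.valuation (eF F π) < 1) {σ : Fin (m + 1) → K →+* ℂ}
    (hσ : Emb F σ) {ω : Fin (m + 1) → 𝓞 K} (hω : IBas F ω) :
    V.valuation (dl σ fun j => (ω j : K)) ^ 2 = vN F V (differentIdeal (𝓞 F) (𝓞 K)) := by
  obtain ⟨ω', hd⟩ := ibas_dual hσ.fin hω
  have hJ : Ideal.span {algebraMap (𝓞 F) (𝓞 K) π} ≠ ⊥ := by
    rw [Ne, Ideal.span_singleton_eq_bot]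
    intro h
    apply hπ0
    apply (FaithfulSMul.algebraMap_injective (𝓞 F) (𝓞 K))
    rw [h, map_zero]
  obtain ⟨x, C, hx0, hx, hC⟩ := exists_loc_gen (diff_ne (F := F) (K := K)) hJ
  have h1 : vN F V (differentIdeal (𝓞 F) (𝓞 K)) = V.valuation (∏ i, σ i x) := by
    rw [← vN_span V hσ, hx, vN_mul, vN_cop V hV hC, mul_one]
  have hxD : x ∈ differentIdeal (𝓞 F) (𝓞 K) := by
    have h2 : Ideal.span {x} ≤ differentIdeal (𝓞 F) (𝓞 K) := by
      rw [hx]
      exact Ideal.mul_le_left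
    exact h2 (Ideal.mem_span_singleton_self x)
  obtain ⟨c, hc, d, hd', hcd⟩ := Submodule.mem_sup.1 (hC ▸ Submodule.mem_top : (1 : 𝓞 K) ∈ C ⊔ Ideal.span {algebraMap (𝓞 F) (𝓞 K) π})
  obtain ⟨y, rfl⟩ := Ideal.mem_span_singleton.1 hd'
  have hc1 : c = 1 + algebraMap (𝓞 F) (𝓞 K) π * (-y) := by linear_combination hcd
  rw [h1]
  refine le_antisymm (val_disc_aux2 V hσ hd hx0 hx hc ?_) (val_disc_aux1 V hσ hω hd hxD)
  rw [hc1]
  exact val_norm_one V hV hσ (-y)

end H41D
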