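import Mathlib
import Pool.Agent.Lib.H41D.P4

/-! # H41D, P5: towers F ⊆ K ⊆ K' -/

open NumberField IsDedekindDomain

namespace H41D

open H55P

variable {F : Type} [Field F] [NumberField F] [IQ F] {K : Type} [Field K] [NumberField K] [Algebra F K]
  {K' : Type} [Field K'] [NumberField K'] [Algebra K K'] [Algebra F K'] [IsScalarTower F K K']

theorem finrank_O {K K' : Type} [Field K] [NumberField K] [Field K'] [NumberField K'] [Algebra K K'] :
    Module.finrank (𝓞 K) (𝓞 K') = Module.finrank K K' :=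
  (IsFractionRing.finrank_eq (𝓞 K) K (𝓞 K') K').symm

theorem relNorm_tower (a : Ideal (𝓞 K')) : Ideal.relNorm (𝓞 F) (Ideal.relNorm (𝓞 K) a) = Ideal.relNorm (𝓞 F) a := by
  have : IsScalarTower (𝓞 F) (𝓞 K) (𝓞 K') := by
    refine IsScalarTower.of_algebraMap_eq fun x => ?_
    apply RingOfIntegers.coe_injective
    exact IsScalarTower.algebraMap_apply F K K' (x : F)
  exact Ideal.relNorm_relNorm (𝓞 F) (𝓞 K) a

theorem vN_tower (V : ValuationSubring ℂ) (a : Ideal (𝓞 K')) : vN F V (Ideal.relNorm (𝓞 K) a) = vN F V a := by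
  obtain ⟨g, hg⟩ := exists_gen (F := F) a
  rw [vN_eq V hg, vN_eq V ((relNorm_tower (K := K) a).trans hg)]

theorem vNc_tower (V : ValuationSubring ℂ) (a : Ideal (𝓞 K')) : vNc F V (Ideal.relNorm (𝓞 K) a) = vNc F V a := by
  obtain ⟨g, hg⟩ := exists_gen (F := F) a
  rw [vNc_eq V hg, vNc_eq V ((relNorm_tower (K := K) a).trans hg)]

theorem vN_map (V : ValuationSubring ℂ) (a : Ideal (𝓞 K)) :
    vN F V (a.map (algebraMap (𝓞 K) (𝓞 K'))) = vN F V a ^ Module.finrank K K' := by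
  rw [← vN_tower (K := K), Ideal.relNorm_algebraMap, vN_pow, finrank_O]

theorem vNc_map (V : ValuationSubring ℂ) (a : Ideal (𝓞 K)) :
    vNc F V (a.map (algebraMap (𝓞 K) (𝓞 K'))) = vNc F V a ^ Module.finrank K K' := by
  rw [← vNc_tower (K := K), Ideal.relNorm_algebraMap, vNc_pow, finrank_O]

theorem diff_tower : differentIdeal (𝓞 F) (𝓞 K') =
    differentIdeal (𝓞 K) (𝓞 K') * (differentIdeal (𝓞 F) (𝓞 K)).map (algebraMap (𝓞 K) (𝓞 K')) := by
  have : IsScalarTower (𝓞 F) (𝓞 K) (𝓞 K') := by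
    refine IsScalarTower.of_algebraMap_eq fun x => ?_
    apply RingOfIntegers.coe_injective
    exact IsScalarTower.algebraMap_apply F K K' (x : F)
  exact differentIdeal_eq_differentIdeal_mul_differentIdeal (𝓞 F) (𝓞 K) (𝓞 K')

/-- (N3) -/
theorem vN_diff_tower (V : ValuationSubring ℂ) : vN F V (differentIdeal (𝓞 F) (𝓞 K')) =
    vN F V (Ideal.relNorm (𝓞 K) (differentIdeal (𝓞 K) (𝓞 K'))) * vN F V (differentIdeal (𝓞 F) (𝓞 K)) ^ Module.finrank K K' := by
  rw [diff_tower (K := K), vN_mul, vN_map, vN_tower]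

theorem vNc_diff_tower (V : ValuationSubring ℂ) : vNc F V (differentIdeal (𝓞 F) (𝓞 K')) =
    vNc F V (Ideal.relNorm (𝓞 K) (differentIdeal (𝓞 K) (𝓞 K'))) * vNc F V (differentIdeal (𝓞 F) (𝓞 K)) ^ Module.finrank K K' := by
  rw [diff_tower (K := K), vNc_mul, vNc_map, vNc_tower]

end H41D
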