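import Mathlib
import Pool.Agent.Lib.H41D.P5

/-! # H41D, P6: absolute norms -/

open NumberField IsDedekindDomain

namespace H41D

open H55P

variable {F : Type} [Field F] [NumberField F] [IQ F] {K : Type} [Field K] [NumberField K] [Algebra F K]

theorem absNorm_eF (g : 𝓞 F) : ((Ideal.absNorm (Ideal.span {g}) : ℕ) : ℂ) = eF F g * (starRingEnd ℂ) (eF F g) := by
  have h := Nm_eq g
  rw [Complex.mul_conj, Complex.normSq_eq_norm_sq, ← h]
  push_cast
  rfl

theorem val_absNorm (V : ValuationSubring ℂ) (a : Ideal (𝓞 K)) :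
    V.valuation ((Ideal.absNorm a : ℕ) : ℂ) = vN F V a * vNc F V a := by
  obtain ⟨g, hg⟩ := exists_gen (F := F) a
  rw [vN_eq V hg, vNc_eq V hg, ← map_mul, ← absNorm_eF, ← hg, Ideal.absNorm_relNorm]

/-- The conjugate of π in the split case. -/
theorem conj_pi {p : ℕ} (hp : p.Prime) {π π' : 𝓞 F} (hπ : ¬ IsUnit π) (hπ' : ¬ IsUnit π') (h : (p : 𝓞 F) = π * π') :
    (starRingEnd ℂ) (eF F π) = eF F π' := by
  have h0 : π ≠ 0 := by
    rintro rfl
    rw [zero_mul] at h
    exact hp.ne_zero (by exact_mod_cast h)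
  have h1 : Ideal.absNorm (Ideal.span {π}) * Ideal.absNorm (Ideal.span {π'}) = p ^ 2 := by
    rw [← map_mul, Ideal.span_singleton_mul_span_singleton, ← h, Ideal.absNorm_span_singleton]
    have h6 := Algebra.norm_algebraMap (S := 𝓞 F) (p : ℤ)
    rw [RingOfIntegers.rank, IQ.deg] at h6
    have h7 : (Algebra.norm ℤ) (p : 𝓞 F) = (p : ℤ) ^ 2 := by simpa using h6
    rw [h7, Int.natAbs_pow, Int.natAbs_natCast]
  have h2 : Ideal.absNorm (Ideal.span {π}) ≠ 1 := by
    rw [Ne, Ideal.absNorm_eq_one_iff, Ideal.span_singleton_eq_top]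
    exact hπ
  have h3 : Ideal.absNorm (Ideal.span {π'}) ≠ 1 := by
    rw [Ne, Ideal.absNorm_eq_one_iff, Ideal.span_singleton_eq_top]
    exact hπ'
  have h4 : Ideal.absNorm (Ideal.span {π}) = p := by
    have h5 : Ideal.absNorm (Ideal.span {π}) ∣ p ^ 2 := ⟨_, h1.symm⟩
    obtain ⟨k, hk, hk'⟩ := (Nat.dvd_prime_pow hp).1 h5
    interval_cases k
    · exact absurd (by simpa using hk') h2
    · simpa using hk'
    · rw [hk'] at h1
      exact absurd (Nat.eq_of_mul_eq_mul_left (pow_pos hp.pos 2) (h1.trans (mul_one _).symm)) h3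
  have h5 := absNorm_eF π
  rw [h4] at h5
  have h6 : ((p : ℕ) : ℂ) = eF F π * eF F π' := by
    rw [← map_mul, ← h, map_natCast]
  rw [h6] at h5
  exact (mul_left_cancel₀ (eF_ne h0) h5).symm

end H41D
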