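import Mathlib
import Pool.Agent.Lib.H41D.P6

/-! # H41D, P7: the conjugate place; prime ideals above π and above its conjugate -/

open NumberField IsDedekindDomain

namespace H41D

open H55P

variable {F : Type} [Field F] [NumberField F] [IQ F] {K : Type} [Field K] [NumberField K] [Algebra F K]

/-- The conjugate place. -/
noncomputable def cV (V : ValuationSubring ℂ) : ValuationSubring ℂ := V.comap (starRingEnd ℂ)

theorem mem_cV (V : ValuationSubring ℂ) (z : ℂ) : z ∈ cV V ↔ (starRingEnd ℂ) z ∈ V := Iff.rfl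

theorem cV_le (V : ValuationSubring ℂ) (z w : ℂ) :
    (cV V).valuation z ≤ (cV V).valuation w ↔ V.valuation ((starRingEnd ℂ) z) ≤ V.valuation ((starRingEnd ℂ) w) := by
  by_cases hw : w = 0
  · rw [hw, map_zero, map_zero, map_zero, le_zero_iff, le_zero_iff, map_eq_zero, map_eq_zero, map_eq_zero]
  · have hw' : (starRingEnd ℂ) w ≠ 0 := (map_ne_zero _).2 hw
    have h1 : (cV V).valuation z ≤ (cV V).valuation w ↔ (cV V).valuation (z / w) ≤ 1 := by
      rw [map_div₀, div_le_one₀ (zero_lt_iff.2 ((map_ne_zero _).2 hw))]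
    have h2 : V.valuation ((starRingEnd ℂ) z) ≤ V.valuation ((starRingEnd ℂ) w) ↔ V.valuation ((starRingEnd ℂ) (z / w)) ≤ 1 := by
      rw [map_div₀, map_div₀, div_le_one₀ (zero_lt_iff.2 ((map_ne_zero _).2 hw'))]
    rw [h1, h2, ValuationSubring.valuation_le_one_iff, ValuationSubring.valuation_le_one_iff, mem_cV]

theorem cV_lt (V : ValuationSubring ℂ) (z w : ℂ) :
    (cV V).valuation z < (cV V).valuation w ↔ V.valuation ((starRingEnd ℂ) z) < V.valuation ((starRingEnd ℂ) w) := by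
  rw [← not_le, ← not_le, cV_le]

theorem cV_eq (V : ValuationSubring ℂ) (z w : ℂ) :
    (cV V).valuation z = (cV V).valuation w ↔ V.valuation ((starRingEnd ℂ) z) = V.valuation ((starRingEnd ℂ) w) := by
  rw [le_antisymm_iff, le_antisymm_iff, cV_le, cV_le]

theorem cV_lt_one (V : ValuationSubring ℂ) (z : ℂ) : (cV V).valuation z < 1 ↔ V.valuation ((starRingEnd ℂ) z) < 1 := by
  have h := cV_lt V z 1
  rwa [map_one, map_one, map_one] at h

theorem cV_eq_one (V : ValuationSubring ℂ) (z : ℂ) : (cV V).valuation z = 1 ↔ V.valuation ((starRingEnd ℂ) z) = 1 := by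
  have h := cV_eq V z 1
  rwa [map_one, map_one, map_one] at h

/-- Ideals prime to the conjugate of π. -/
theorem vNc_cop (V : ValuationSubring ℂ) {ρ : 𝓞 F} (hV : V.valuation ((starRingEnd ℂ) (eF F ρ)) < 1) {C : Ideal (𝓞 K)}
    (hC : C ⊔ Ideal.span {algebraMap (𝓞 F) (𝓞 K) ρ} = ⊤) : vNc F V C = 1 :=
  (cV_eq_one V _).1 (vN_cop (cV V) ((cV_lt_one V _).2 hV) hC)

/-- (N2) at the conjugate place. -/
theorem val_discc (V : ValuationSubring ℂ) {ρ : 𝓞 F} (hρ0 : ρ ≠ 0) (hV : V.valuation ((starRingEnd ℂ) (eF F ρ)) < 1) {m : ℕ}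
    {σ : Fin (m + 1) → K →+* ℂ} (hσ : Emb F σ) {ω : Fin (m + 1) → 𝓞 K} (hω : IBas F ω) :
    V.valuation ((starRingEnd ℂ) (dl σ fun j => (ω j : K))) ^ 2 = vNc F V (differentIdeal (𝓞 F) (𝓞 K)) := by
  have h := val_disc (cV V) hρ0 ((cV_lt_one V _).2 hV) hσ hω
  unfold vN at h
  rw [← map_pow, cV_eq, map_pow, map_pow] at h
  exact h

/-- The relative norm of a prime ideal above π. -/
theorem relNorm_prime {π : 𝓞 F} (hπ : Prime π) (v : HeightOneSpectrum (𝓞 K)) (hv : algebraMap (𝓞 F) (𝓞 K) π ∈ v.asIdeal) :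
    ∃ f : ℕ, f ≠ 0 ∧ Ideal.relNorm (𝓞 F) v.asIdeal = Ideal.span {π ^ f} := by
  have hmax : (Ideal.span {π}).IsMaximal := by
    have h1 : (Ideal.span {π}).IsPrime := (Ideal.span_singleton_prime hπ.ne_zero).2 hπ
    exact h1.isMaximal (by rw [Ne, Ideal.span_singleton_eq_bot]; exact hπ.ne_zero)
  have hl : v.asIdeal.LiesOver (Ideal.span {π}) := by
    constructor
    refine hmax.eq_of_le (Ideal.IsPrime.ne_top (Ideal.IsPrime.under (𝓞 F) v.asIdeal)) ?_
    rw [Ideal.span_singleton_le_iff_mem]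
    exact hv
  have := v.isMaximal
  refine ⟨v.asIdeal.inertiaDeg (𝓞 F), (Ideal.inertiaDeg_pos v.asIdeal (𝓞 F)).ne', ?_⟩
  rw [Ideal.relNorm_eq_pow_of_isMaximal v.asIdeal (Ideal.span {π}), Ideal.span_singleton_pow]

theorem vN_prime_above (V : ValuationSubring ℂ) {π : 𝓞 F} (hπ : Prime π) (hc : V.valuation ((starRingEnd ℂ) (eF F π)) = 1)
    (v : HeightOneSpectrum (𝓞 K)) (hv : algebraMap (𝓞 F) (𝓞 K) π ∈ v.asIdeal) :
    vNc F V v.asIdeal = 1 ∧ vN F V v.asIdeal = V.valuation ((Ideal.absNorm v.asIdeal : ℕ) : ℂ) := by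
  obtain ⟨f, hf, h⟩ := relNorm_prime hπ v hv
  have h1 : vNc F V v.asIdeal = 1 := by
    rw [vNc_eq V h, map_pow, map_pow, map_pow, hc, one_pow]
  exact ⟨h1, by rw [val_absNorm (F := F) V, h1, mul_one]⟩

theorem sup_of_notMem {x : 𝓞 K} (v : HeightOneSpectrum (𝓞 K)) (hv : x ∉ v.asIdeal) : v.asIdeal ⊔ Ideal.span {x} = ⊤ := by
  refine v.isMaximal.1.2 _ (lt_of_le_of_ne le_sup_left fun h => hv ?_)
  rw [h]
  exact Ideal.mem_sup_right (Ideal.mem_span_singleton_self x)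

theorem vN_prime_other (V : ValuationSubring ℂ) {π : 𝓞 F} (hV : V.valuation (eF F π) < 1)
    (v : HeightOneSpectrum (𝓞 K)) (hv : algebraMap (𝓞 F) (𝓞 K) π ∉ v.asIdeal) : vN F V v.asIdeal = 1 :=
  vN_cop V hV (sup_of_notMem v hv)

theorem vNc_prime_other (V : ValuationSubring ℂ) {ρ : 𝓞 F} (hV : V.valuation ((starRingEnd ℂ) (eF F ρ)) < 1)
    (v : HeightOneSpectrum (𝓞 K)) (hv : algebraMap (𝓞 F) (𝓞 K) ρ ∉ v.asIdeal) : vNc F V v.asIdeal = 1 :=
  vNc_cop V hV (sup_of_notMem v hv)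

end H41D
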