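import Mathlib
import Pool.Agent.Lib.H35M.GD
import Pool.Agent.Lib.H41D.P7

/-! # H41D, P8: the discriminant determinant in a tower of degree p (N4), the absolute discriminant (N5) -/

open NumberField IsDedekindDomain

namespace H41D

open H55P

variable {F : Type} [Field F] [NumberField F] [IQ F] {K : Type} [Field K] [NumberField K] [Algebra F K]

/-- The part above π of a modulus. -/
theorem vN_fT (V : ValuationSubring ℂ) {π : 𝓞 F} (hπ : Prime π) (hc : V.valuation ((starRingEnd ℂ) (eF F π)) = 1)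
    (T : Finset (HeightOneSpectrum (𝓞 K))) (hT : ∀ v ∈ T, algebraMap (𝓞 F) (𝓞 K) π ∈ v.asIdeal) (a : HeightOneSpectrum (𝓞 K) → ℕ) :
    vN F V (H35M.fT T a) = V.valuation ((Ideal.absNorm (H35M.fT T a) : ℕ) : ℂ) ∧ vNc F V (H35M.fT T a) = 1 := by
  classical
  have h1 : vNc F V (H35M.fT T a) = 1 := by
    unfold H35M.fT
    induction T using Finset.induction_on with
    | empty => rw [Finset.prod_empty, Ideal.one_eq_top, vNc_top]
    | insert v s hv ih =>
      rw [Finset.prod_insert hv, vNc_mul, ih fun w hw => hT w (Finset.mem_insert_of_mem hw), vNc_pow,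
        (vN_prime_above V hπ hc v (hT v (Finset.mem_insert_self v s))).1, one_pow, mul_one]
  exact ⟨by rw [val_absNorm (F := F) V, h1, mul_one], h1⟩

variable {K' : Type} [Field K'] [NumberField K'] [Algebra K K'] [Algebra F K'] [IsScalarTower F K K']

/-- (N4) The different of K' over F in terms of the conductor. -/
theorem vN_diff_cond (V : ValuationSubring ℂ) {π : 𝓞 F} (hπ : Prime π) (hV : V.valuation (eF F π) < 1)
    (hc : V.valuation ((starRingEnd ℂ) (eF F π)) = 1)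
    (T : Finset (HeightOneSpectrum (𝓞 K))) (hT : ∀ v ∈ T, algebraMap (𝓞 F) (𝓞 K) π ∈ v.asIdeal) (a : HeightOneSpectrum (𝓞 K) → ℕ)
    (n : ℕ) (C : Ideal (𝓞 K)) (hC : C ⊔ Ideal.span {algebraMap (𝓞 F) (𝓞 K) π} = ⊤)
    (hD : Ideal.relNorm (𝓞 K) (differentIdeal (𝓞 K) (𝓞 K')) = H35M.fT T a ^ n * C) :
    vN F V (differentIdeal (𝓞 F) (𝓞 K')) =
      V.valuation ((Ideal.absNorm (H35M.fT T a) : ℕ) : ℂ) ^ n * vN F V (differentIdeal (𝓞 F) (𝓞 K)) ^ Module.finrank K K' := by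
  rw [vN_diff_tower (K := K), hD, vN_mul, vN_pow, (vN_fT V hπ hc T hT a).1, vN_cop V hV hC, mul_one]

/-- (N4) for the determinants. -/
theorem dl_tower (V : ValuationSubring ℂ) {π : 𝓞 F} (hπ : Prime π) (hV : V.valuation (eF F π) < 1)
    (hc : V.valuation ((starRingEnd ℂ) (eF F π)) = 1)
    {m m' : ℕ} {σ : Fin (m + 1) → K →+* ℂ} (hσ : Emb F σ) {ω : Fin (m + 1) → 𝓞 K} (hω : IBas F ω)
    {σ' : Fin (m' + 1) → K' →+* ℂ} (hσ' : Emb F σ') {ω' : Fin (m' + 1) → 𝓞 K'} (hω' : IBas F ω')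
    (T : Finset (HeightOneSpectrum (𝓞 K))) (hT : ∀ v ∈ T, algebraMap (𝓞 F) (𝓞 K) π ∈ v.asIdeal) (a : HeightOneSpectrum (𝓞 K) → ℕ)
    (n : ℕ) (C : Ideal (𝓞 K)) (hC : C ⊔ Ideal.span {algebraMap (𝓞 F) (𝓞 K) π} = ⊤)
    (hD : Ideal.relNorm (𝓞 K) (differentIdeal (𝓞 K) (𝓞 K')) = H35M.fT T a ^ n * C) :
    V.valuation (dl σ' fun j => (ω' j : K')) ^ 2 =
      V.valuation ((Ideal.absNorm (H35M.fT T a) : ℕ) : ℂ) ^ n *
        (V.valuation (dl σ fun j => (ω j : K)) ^ 2) ^ Module.finrank K K' := by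
  rw [val_disc V hπ.ne_zero hV hσ' hω', val_disc V hπ.ne_zero hV hσ hω, vN_diff_cond V hπ hV hc T hT a n C hC hD]

theorem val_natAbs (V : ValuationSubring ℂ) (z : ℤ) : V.valuation ((z.natAbs : ℕ) : ℂ) = V.valuation ((z : ℤ) : ℂ) := by
  rcases Int.natAbs_eq z with h | h
  · conv_rhs => rw [h]
    rw [Int.cast_natCast]
  · conv_rhs => rw [h]
    rw [Int.cast_neg, Int.cast_natCast, Valuation.map_neg]

/-- The discriminant in a tower. -/
theorem discr_tower (V : ValuationSubring ℂ) (f : Ideal (𝓞 K)) (n : ℕ)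
    (hD : Ideal.relNorm (𝓞 K) (differentIdeal (𝓞 K) (𝓞 K')) = f ^ n) :
    V.valuation ((discr K' : ℤ) : ℂ) = V.valuation ((Ideal.absNorm f : ℕ) : ℂ) ^ n * V.valuation ((discr K : ℤ) : ℂ) ^ Module.finrank K K' := by
  have h := NumberField.natAbs_discr_eq_absNorm_differentIdeal_mul_natAbs_discr_pow K (𝓞 K) K' (𝓞 K')
  rw [← Ideal.absNorm_relNorm (𝓞 K) (𝓞 K') (differentIdeal (𝓞 K) (𝓞 K')), hD, map_pow] at h
  rw [← val_natAbs V (discr K'), ← val_natAbs V (discr K), h]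
  push_cast
  rw [map_mul, map_pow, map_pow]

/-- Integers prime to p. -/
theorem val_cop (V : ValuationSubring ℂ) {p : ℕ} (hV : V.valuation (p : ℂ) < 1) {z : ℤ} (hz : IsCoprime (p : ℤ) z) :
    V.valuation ((z : ℤ) : ℂ) = 1 := by
  have hle : ∀ z : ℤ, V.valuation ((z : ℤ) : ℂ) ≤ 1 := fun z => val_int V (isIntegral_algebraMap (R := ℤ) (A := ℂ) (x := z))
  refine le_antisymm (hle z) ?_
  by_contra hlt
  push Not at hlt
  obtain ⟨a, b, hab⟩ := hz
  have h1 : V.valuation (((a * p + b * z : ℤ)) : ℂ) < 1 := by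
    push_cast
    refine lt_of_le_of_lt (V.valuation.map_add _ _) (max_lt ?_ ?_)
    · rw [map_mul, mul_comm]; exact mul_lt_one_of_lt_of_le hV (hle a)
    · rw [map_mul, mul_comm]; exact mul_lt_one_of_lt_of_le hlt (hle b)
  rw [hab, Int.cast_one, map_one] at h1
  exact lt_irrefl _ h1

/-- p is unramified in F. -/
theorem unrF {p : ℕ} {π π' : 𝓞 F} (hπ : Prime π) (hπ' : Prime π') (h : (p : 𝓞 F) = π * π') (hne : ¬ Associated π π') : UnrP p F := by
  unfold UnrP
  rw [h, ← Ideal.span_singleton_mul_span_singleton]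
  have h1 : Prime (Ideal.span {π}) := Ideal.prime_of_isPrime (by rw [Ne, Ideal.span_singleton_eq_bot]; exact hπ.ne_zero)
    ((Ideal.span_singleton_prime hπ.ne_zero).2 hπ)
  have h2 : Prime (Ideal.span {π'}) := Ideal.prime_of_isPrime (by rw [Ne, Ideal.span_singleton_eq_bot]; exact hπ'.ne_zero)
    ((Ideal.span_singleton_prime hπ'.ne_zero).2 hπ')
  rw [squarefree_mul_iff]
  refine ⟨?_, h1.irreducible.squarefree, h2.irreducible.squarefree⟩
  refine (Irreducible.isRelPrime_iff_not_dvd h1.irreducible).2 fun h3 => hne ?_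
  have h4 := (h1.dvd_prime_iff_associated h2).1 h3
  rw [associated_iff_eq] at h4
  exact Ideal.span_singleton_eq_span_singleton.1 h4

theorem val_discrF (V : ValuationSubring ℂ) {p : ℕ} (hp : p.Prime) (hV : V.valuation (p : ℂ) < 1) {π π' : 𝓞 F} (hπ : Prime π)
    (hπ' : Prime π') (h : (p : 𝓞 F) = π * π') (hne : ¬ Associated π π') : V.valuation ((discr F : ℤ) : ℂ) = 1 := by
  refine val_cop V hV ?_
  have h1 : ¬ (p : ℤ) ∣ discr F := pl1_discr p hp (unrF hπ hπ' h hne)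
  exact (Nat.prime_iff_prime_int.1 hp).coprime_iff_not_dvd.2 h1

/-- (N5) The absolute discriminant is the product of the norms of the different at the two places. -/
theorem val_discr (V : ValuationSubring ℂ) {p : ℕ} (hp : p.Prime) (hV : V.valuation (p : ℂ) < 1) {π π' : 𝓞 F} (hπ : Prime π)
    (hπ' : Prime π') (h : (p : 𝓞 F) = π * π') (hne : ¬ Associated π π') :
    V.valuation ((discr K : ℤ) : ℂ) = vN F V (differentIdeal (𝓞 F) (𝓞 K)) * vNc F V (differentIdeal (𝓞 F) (𝓞 K)) := by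
  have h1 := NumberField.natAbs_discr_eq_absNorm_differentIdeal_mul_natAbs_discr_pow F (𝓞 F) K (𝓞 K)
  rw [← val_absNorm, ← val_natAbs V (discr K), h1]
  push_cast
  rw [map_mul, map_pow, val_natAbs V (discr F), val_discrF V hp hV hπ hπ' h hne, one_pow, mul_one]

end H41D
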